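import Pool.Agent.Lib_helper52.EPS.Defs
import Pool.Agent.Lib_helper58.EPS.F2
set_option autoImplicit false

namespace Pool.Agent.EPS

open MeasureTheory Set Filter Topology

variable {d : ℕ}

theorem f3_finE_iff (γ : Measure (EuclideanSpace ℝ (Fin d))) [IsProbabilityMeasure γ] :
    FinE γ ↔ γ ≪ volume ∧ Integrable (llr γ volume) γ := by
  unfold FinE
  refine and_congr_right (fun hγ => ?_)
  rw [← integrable_rnDeriv_mul_log_iff hγ]
  have e : (fun x => Real.negMulLog ((γ.rnDeriv volume x).toReal)) =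
      -(fun x => (γ.rnDeriv volume x).toReal * Real.log ((γ.rnDeriv volume x).toReal)) := by
    funext x
    simp [Real.negMulLog]
  rw [e, integrable_neg_iff]

theorem f3_ent (γ : Measure (EuclideanSpace ℝ (Fin d))) [IsProbabilityMeasure γ]
    (hγ : γ ≪ volume) : ent γ = - ∫ x, llr γ volume x ∂γ := by
  unfold ent
  rw [← integral_rnDeriv_mul_log hγ, ← integral_neg]
  refine integral_congr_ae (Eventually.of_forall fun x => ?_)
  simp [Real.negMulLog]

theorem f3_mp_snd (α γ : Measure (EuclideanSpace ℝ (Fin d))) [IsProbabilityMeasure α]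
    [IsProbabilityMeasure γ] : MeasurePreserving (fun p : EuclideanSpace ℝ (Fin d) ×
      EuclideanSpace ℝ (Fin d) => p.2) (Jn α γ) (α.conv γ) := by
  refine ⟨measurable_snd, ?_⟩
  unfold Jn Measure.conv
  rw [Measure.map_map measurable_snd (by fun_prop)]
  rfl

theorem f3_mp_sub (α γ : Measure (EuclideanSpace ℝ (Fin d))) [IsProbabilityMeasure α]
    [IsProbabilityMeasure γ] : MeasurePreserving (fun p : EuclideanSpace ℝ (Fin d) ×
      EuclideanSpace ℝ (Fin d) => p.2 - p.1) (Jn α γ) γ := by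
  refine ⟨by fun_prop, ?_⟩
  unfold Jn
  rw [Measure.map_map (by fun_prop) (by fun_prop)]
  have e : ((fun p : EuclideanSpace ℝ (Fin d) × EuclideanSpace ℝ (Fin d) => p.2 - p.1) ∘
      fun p => (p.1, p.1 + p.2)) = Prod.snd := by
    funext p
    simp
  rw [e]
  have h := Measure.map_snd_prod (μ := α) (ν := γ)
  rw [h]
  simp

theorem f3_int {X Y : Type*} [MeasurableSpace X] [MeasurableSpace Y] {μ : Measure X}
    {ν : Measure Y} {f : X → Y} {g : Y → ℝ} (hf : MeasurePreserving f μ ν)
    (hg : AEStronglyMeasurable g ν) : ∫ x, g (f x) ∂μ = ∫ y, g y ∂ν := by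
  have hg' : AEStronglyMeasurable g (μ.map f) := by
    rw [hf.map_eq]
    exact hg
  have h := integral_map hf.measurable.aemeasurable hg'
  rw [hf.map_eq] at h
  exact h.symm

theorem f3_prob (α γ : Measure (EuclideanSpace ℝ (Fin d))) [IsProbabilityMeasure α]
    [IsProbabilityMeasure γ] : IsProbabilityMeasure (Jn α γ) := by
  unfold Jn
  exact Measure.isProbabilityMeasure_map (by fun_prop)

/-- the value of the mutual information -/
theorem MI_val (α γ : Measure (EuclideanSpace ℝ (Fin d))) [IsProbabilityMeasure α]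
    [IsProbabilityMeasure γ] (hγ : FinE γ) (hc : FinE (α.conv γ)) :
    MI α γ = ENNReal.ofReal (ent (α.conv γ) - ent γ) ∧ ent γ ≤ ent (α.conv γ) := by
  have := f3_prob α γ
  obtain ⟨hac, hllr⟩ := llr_Jn α γ hγ.1
  obtain ⟨hγ1, hγ2⟩ := (f3_finE_iff γ).mp hγ
  obtain ⟨hc1, hc2⟩ := (f3_finE_iff (α.conv γ)).mp hc
  have hm1 : AEStronglyMeasurable (llr γ volume) γ := hγ2.aestronglyMeasurable
  have hm2 : AEStronglyMeasurable (llr (α.conv γ) volume) (α.conv γ) := hc2.aestronglyMeasurable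
  have hI1 : Integrable (fun p : EuclideanSpace ℝ (Fin d) × EuclideanSpace ℝ (Fin d) =>
      llr γ volume (p.2 - p.1)) (Jn α γ) :=
    ((f3_mp_sub α γ).integrable_comp hm1).mpr hγ2
  have hI2 : Integrable (fun p : EuclideanSpace ℝ (Fin d) × EuclideanSpace ℝ (Fin d) =>
      llr (α.conv γ) volume p.2) (Jn α γ) :=
    ((f3_mp_snd α γ).integrable_comp hm2).mpr hc2
  have e1 : ∫ p, llr γ volume (p.2 - p.1) ∂(Jn α γ) = ∫ x, llr γ volume x ∂γ :=
    f3_int (f3_mp_sub α γ) hm1
  have e2 : ∫ p, llr (α.conv γ) volume p.2 ∂(Jn α γ) =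
      ∫ x, llr (α.conv γ) volume x ∂(α.conv γ) := f3_int (f3_mp_snd α γ) hm2
  have hI : Integrable (llr (Jn α γ) (α.prod (α.conv γ))) (Jn α γ) := by
    refine (hI1.sub hI2).congr ?_
    filter_upwards [hllr] with p hp
    rw [hp]
    rfl
  have e3 : ∫ p, llr (Jn α γ) (α.prod (α.conv γ)) p ∂(Jn α γ) =
      ent (α.conv γ) - ent γ := by
    rw [f3_ent _ hγ1, f3_ent _ hc1, ← e1, ← e2]
    have h := integral_sub hI1 hI2
    have h' : ∫ p, llr (Jn α γ) (α.prod (α.conv γ)) p ∂(Jn α γ) =
        ∫ p, (llr γ volume (p.2 - p.1) - llr (α.conv γ) volume p.2) ∂(Jn α γ) := by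
      refine integral_congr_ae ?_
      filter_upwards [hllr] with p hp
      rw [hp]
      rfl
    rw [h', h]
    ring
  have e4 : (α.prod (α.conv γ)).real univ - (Jn α γ).real univ = 0 := by
    simp [measureReal_def]
  refine ⟨?_, ?_⟩
  · unfold MI
    rw [InformationTheory.klDiv_of_ac_of_integrable hac hI, e3, add_sub_assoc, e4, add_zero]
  · have h := InformationTheory.integral_llr_add_sub_measure_univ_nonneg hac hI
    rw [e3, add_sub_assoc, e4, add_zero] at h
    linarith

/-- finite mutual information gives finite entropy -/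
theorem MI_fin (α γ : Measure (EuclideanSpace ℝ (Fin d))) [IsProbabilityMeasure α]
    [IsProbabilityMeasure γ] (hγ : FinE γ) (h : MI α γ ≠ ⊤) : FinE (α.conv γ) := by
  have := f3_prob α γ
  obtain ⟨hac, hllr⟩ := llr_Jn α γ hγ.1
  obtain ⟨hγ1, hγ2⟩ := (f3_finE_iff γ).mp hγ
  unfold MI at h
  obtain ⟨-, hI⟩ := InformationTheory.klDiv_ne_top_iff.mp h
  have hm1 : AEStronglyMeasurable (llr γ volume) γ := hγ2.aestronglyMeasurable
  have hI1 : Integrable (fun p : EuclideanSpace ℝ (Fin d) × EuclideanSpace ℝ (Fin d) =>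
      llr γ volume (p.2 - p.1)) (Jn α γ) :=
    ((f3_mp_sub α γ).integrable_comp hm1).mpr hγ2
  have hm2 : AEStronglyMeasurable (llr (α.conv γ) volume) (α.conv γ) :=
    (measurable_llr _ _).aestronglyMeasurable
  refine (f3_finE_iff (α.conv γ)).mpr ⟨Measure.conv_absolutelyContinuous hγ1, ?_⟩
  refine ((f3_mp_snd α γ).integrable_comp hm2).mp ?_
  refine (hI1.sub hI).congr ?_
  filter_upwards [hllr] with p hp
  have : llr γ volume (p.2 - p.1) - llr (Jn α γ) (α.prod (α.conv γ)) p =
      llr (α.conv γ) volume p.2 := by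
    rw [hp]
    simp only [llr]
    ring
  exact this

end Pool.Agent.EPS
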