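import Pool.Agent.Lib_helper52.EPS.Defs
import Pool.Agent.Lib_helper73.EPS.C0
set_option autoImplicit false

namespace Pool.Agent.EPS

open MeasureTheory Set Filter Topology

variable {G : Type*} [MeasureSpace G] [TopologicalSpace G] [AddCommGroup G]
  [IsTopologicalAddGroup G] [BorelSpace G] [SecondCountableTopology G] [LocallyCompactSpace G]
  [T2Space G] [(volume : Measure G).IsAddHaarMeasure]

theorem b2_ind (K : Set G) (hK : IsCompact K) (C : ℝ) :
    Integrable (K.indicator (fun _ : G => C)) :=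
  (integrable_indicator_iff hK.measurableSet).mpr
    (integrableOn_const (ne_of_lt hK.measure_lt_top) (by simp))

/-- convergence of entropies of uniformly bounded functions on a compact set -/
theorem ent_lim (F : ℕ → G → ℝ) (f : G → ℝ) (M : ℝ) (K : Set G) (hK : IsCompact K)
    (hm : ∀ n, Measurable (F n)) (h0 : ∀ n x, 0 ≤ F n x) (hM : ∀ n x, F n x ≤ M)
    (hoff : ∀ n x, x ∉ K → F n x = 0)
    (hl : ∀ᵐ x, Tendsto (fun n => F n x) atTop (𝓝 (f x))) :
    Tendsto (fun n => ∫ x, Real.negMulLog (F n x)) atTop (𝓝 (∫ x, Real.negMulLog (f x))) := by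
  obtain ⟨C, hC⟩ := (isCompact_Icc (a := (0 : ℝ)) (b := M)).exists_bound_of_continuousOn
    (f := Real.negMulLog) Real.continuous_negMulLog.continuousOn
  refine tendsto_integral_of_dominated_convergence (K.indicator (fun _ : G => C)) ?_
    (b2_ind K hK C) ?_ ?_
  · intro n
    exact (Real.continuous_negMulLog.measurable.comp (hm n)).aestronglyMeasurable
  · intro n
    refine Eventually.of_forall (fun x => ?_)
    by_cases hx : x ∈ K
    · rw [indicator_of_mem hx]
      exact hC _ ⟨h0 n x, hM n x⟩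
    · rw [indicator_of_notMem hx, hoff n x hx]
      simp
  · filter_upwards [hl] with x hx
    exact (Real.continuous_negMulLog.tendsto (f x)).comp hx

/-- convergence of convolutions -/
theorem cv_lim (F F' : ℕ → G → ℝ) (f f' : G → ℝ) (M : ℝ) (K : Set G) (hK : IsCompact K)
    (hm : ∀ n, Measurable (F n)) (h0 : ∀ n x, 0 ≤ F n x) (hM : ∀ n x, F n x ≤ M)
    (hoff : ∀ n x, x ∉ K → F n x = 0)
    (hm' : ∀ n, Measurable (F' n)) (h0' : ∀ n x, 0 ≤ F' n x) (hM' : ∀ n x, F' n x ≤ M)
    (hl : ∀ᵐ x, Tendsto (fun n => F n x) atTop (𝓝 (f x)))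
    (hl' : ∀ᵐ x, Tendsto (fun n => F' n x) atTop (𝓝 (f' x))) (t : G) :
    Tendsto (fun n => cv (F n) (F' n) t) atTop (𝓝 (cv f f' t)) := by
  have hmp : MeasurePreserving (fun x => t - x) (volume : Measure G) volume :=
    Measure.measurePreserving_sub_left volume t
  have hl2 : ∀ᵐ x : G, Tendsto (fun n => F' n (t - x)) atTop (𝓝 (f' (t - x))) :=
    hmp.quasiMeasurePreserving.ae hl'
  unfold cv
  refine tendsto_integral_of_dominated_convergence (K.indicator (fun _ : G => M * M)) ?_
    (b2_ind K hK (M * M)) ?_ ?_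
  · intro n
    exact ((hm n).mul ((hm' n).comp hmp.measurable)).aestronglyMeasurable
  · intro n
    refine Eventually.of_forall (fun x => ?_)
    by_cases hx : x ∈ K
    · rw [indicator_of_mem hx, Real.norm_eq_abs, abs_mul, abs_of_nonneg (h0 n x),
        abs_of_nonneg (h0' n (t - x))]
      exact mul_le_mul (hM n x) (hM' n (t - x)) (h0' n (t - x)) ((h0 n x).trans (hM n x))
    · rw [indicator_of_notMem hx, hoff n x hx]
      simp
  · filter_upwards [hl, hl2] with x hx hx2
    exact hx.mul hx2

end Pool.Agent.EPS
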